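import Mathlib
import Pool.Agent.Helper750.CT.Lim
import Pool.Agent.Helper750.CT.Dec

set_option autoImplicit false

/-!
The lemmas `range_K`, `locs_K` of the starting library for an arbitrary oracle `O` in place of the
halting problem (same proofs).
-/

namespace Pool.Agent.Y670.TF

open Pool.Agent.Helper750.CT Pool.Agent.Helper750.DC Pool.Agent.Helper446.RE Encodable Nat.Partrec

theorem evD_not : ¬ TLe (chi {k | {u | evD k u = true}.Finite}) (chi K) := by
  classical
  intro hT
  obtain ⟨h, hh, hlim⟩ := exists_lim _ hT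
  have hp : Partrec₂ (fun (c : Code) (t : ℕ) =>
      (bif decide (h (encode c) t = 1) then Part.some 0 else Part.none : Part ℕ)) := by
    have h1 : Computable fun q : Code × ℕ => h (encode q.1) q.2 :=
      hh.comp (Computable.encode.comp Computable.fst) Computable.snd
    have h2 : Computable fun q : Code × ℕ => decide (h (encode q.1) q.2 = 1) :=
      cdecide (cp_eq h1 (cconst 1))
    exact Partrec.cond h2 (Computable.const 0).partrec Partrec.none
  obtain ⟨c, hc⟩ := Code.fixed_point₂ hp
  have hdom : ∀ t, (c.eval t).Dom ↔ h (encode c) t = 1 := by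
    intro t
    rw [hc]
    by_cases ht : h (encode c) t = 1
    · simp [ht]
    · simp [ht]
  obtain ⟨s0, hs0⟩ := hlim (encode c)
  have hfin : (encode c ∈ {k | {u | evD k u = true}.Finite}) ↔ {t | h (encode c) t = 1}.Finite := by
    change {u | evD (encode c) u = true}.Finite ↔ _
    rw [evD_finite, Denumerable.ofNat_encode]
    simp only [hdom]
  by_cases hmem : encode c ∈ {k | {u | evD k u = true}.Finite}
  · have hf := hfin.1 hmem
    have hval : ∀ s, s0 ≤ s → h (encode c) s = 1 := by
      intro s hs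
      rw [hs0 s hs]
      unfold chi
      rw [if_pos hmem]
    exact (Set.Ici_infinite s0) (hf.subset fun s hs => hval s hs)
  · apply hmem
    rw [hfin]
    have hval : ∀ s, s0 ≤ s → h (encode c) s = 0 := by
      intro s hs
      rw [hs0 s hs]
      unfold chi
      rw [if_neg hmem]
    refine (Set.finite_Iio s0).subset fun s hs => ?_
    have hs1 : h (encode c) s = 1 := hs
    rw [Set.mem_Iio]
    by_contra hcon
    rw [hval s (not_lt.1 hcon)] at hs1
    exact absurd hs1 (by norm_num)

theorem locs_O (O : ℕ → ℕ) (R : Set ℕ) (hR : TLe (chi R) O) :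
    TLe (chi {k | ∃ m ∈ locs k, m ∈ R}) O := by
  classical
  have h1 : Pool.Agent.Helper743.TR (chi R) O := Pool.Agent.Helper743.TR_iff.2 hR
  refine Pool.Agent.Helper743.TR_iff.1 ?_
  have c1 : Computable (fun z : ℕ => 2 * Nat.pair z.unpair.1 z.unpair.2.unpair.1 + 2) :=
    cadd (cmul (cconst 2) (cnatpair (cfst (cunpair cid))
      (cfst (cunpair (csnd (cunpair cid)))))) (cconst 2)
  have c2 : Computable (fun z : ℕ => z.unpair.2.unpair.2) :=
    csnd (cunpair (csnd (cunpair cid)))
  have c3 : Computable (fun z : ℕ => max z.unpair.1 z.unpair.2) :=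
    cmax (cfst (cunpair cid)) (csnd (cunpair cid))
  have h2 : Pool.Agent.Helper743.RecT {((O : ℕ → ℕ) : ℕ →. ℕ)} (fun z : ℕ =>
      Nat.pair z.unpair.2.unpair.2
        (chi R (2 * Nat.pair z.unpair.1 z.unpair.2.unpair.1 + 2))) :=
    Pool.Agent.Helper743.RecT.pair (Pool.Agent.Helper743.Computable.recT c2)
      (Pool.Agent.Helper743.RecT.comp h1 (Pool.Agent.Helper743.Computable.recT c1))
  have h3 := Pool.Agent.Helper743.RecT.comp (Pool.Agent.Helper743.Computable.recT c3) h2
  have h4 := Pool.Agent.Helper743.RecT.prec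
    (Pool.Agent.Helper743.Computable.recT (O := {((O : ℕ → ℕ) : ℕ →. ℕ)})
      (Computable.const 0)) h3
  have c4 : Computable (fun k : ℕ => Nat.pair k (bd 3 (2 * k + 1))) :=
    cnatpair cid ((locs_K_bd 3).comp (cadd (cmul (cconst 2) cid) (cconst 1)))
  have h5 := Pool.Agent.Helper743.RecT.comp h4 (Pool.Agent.Helper743.Computable.recT c4)
  refine Nat.RecursiveIn.of_eq h5 ?_
  intro k
  congr 1
  simp only [Nat.unpair_pair]
  have h6 : ∀ n, (Nat.rec (motive := fun _ => ℕ) 0 (fun y ih =>
      max ih (chi R (2 * Nat.pair k y + 2))) n : ℕ) = locs_K_F (chi R) k n := by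
    intro n
    induction n with
    | zero => rfl
    | succ n ih => simp only [locs_K_F]; rw [← ih]
  rw [h6, locs_K_F_spec]
  unfold chi
  have h7 : (∃ c < bd 3 (2 * k + 1), 2 * Nat.pair k c + 2 ∈ R) ↔
      k ∈ {k | ∃ m ∈ locs k, m ∈ R} := by
    change _ ↔ ∃ m ∈ locs k, m ∈ R
    unfold locs
    constructor
    · rintro ⟨c, hc, hR⟩
      exact ⟨_, List.mem_map.2 ⟨c, List.mem_range.2 hc, rfl⟩, hR⟩
    · rintro ⟨m, hm, hR⟩
      obtain ⟨c, hc, rfl⟩ := List.mem_map.1 hm
      exact ⟨c, List.mem_range.1 hc, hR⟩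
  by_cases h8 : k ∈ {k | ∃ m ∈ locs k, m ∈ R}
  · rw [if_pos h8, if_pos (h7.2 h8)]
  · rw [if_neg h8, if_neg (fun h => h8 (h7.1 h))]

open Pool.Agent.Helper743 in
theorem range_O (O : ℕ → ℕ) (d : ℕ → Option ℕ) (P : ℕ → List ℕ → Prop) (M : Str) (hM : IsGen d P M)
    (hc : IsComputableStr LL M) (hd : TLe (fun n => encode (d n)) O)
    (hfin : ∀ k, {q | ∃ x, q = tp LL M k x}.Finite)
    (hq : ∀ (k : ℕ) (x y : ℕ → ℕ),
      tp LL M k x = tp LL M k y ↔ ∀ N, PI d P P N (Finset.range k) x y)
    (ht : TLe (fun k => {q | ∃ x, q = tp LL M k x}.ncard) O) :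
    TLe (chi {m | ∃ n, d n = some m}) O := by
  obtain ⟨⟨Rd, hRd, hR⟩, _⟩ := hc
  obtain ⟨q, hqc, hqA⟩ := re_iff.1 (re_Ark Rd hRd)
  have hd' : RecT {((O : ℕ → ℕ) : ℕ →. ℕ)} (fun n => encode (d n)) := TR_iff.2 hd
  have ht' : RecT {((O : ℕ → ℕ) : ℕ →. ℕ)} (fun k => {q | ∃ x, q = tp LL M k x}.ncard) := TR_iff.2 ht
  have hG := RecT.pair hd' ht'
  apply TR_iff.1
  show RecT _ _
  refine cert hG (fun σ m w => bif exB (fun n => decide (dvrk σ n = some m)) σ.length then some 1
    else bif q (σ, m) w then some 0 else none) ?_ _ ?_ ?_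
  · have h1 : Computable₂ (fun (y : (List ℕ × ℕ) × ℕ) (n : ℕ) => decide (dvrk y.1.1 n = some y.1.2)) := by
      have : ComputablePred (fun z : ((List ℕ × ℕ) × ℕ) × ℕ => dvrk z.1.1.1 z.2 = some z.1.1.2) :=
        cp_eq (by fun_prop) (by fun_prop)
      exact cdecide this
    have h2 : Computable (fun y : (List ℕ × ℕ) × ℕ => exB (fun n => decide (dvrk y.1.1 n = some y.1.2)) y.1.1.length) :=
      computable_exB h1 (by fun_prop)
    have hq' : Computable (fun x : (List ℕ × ℕ) × ℕ => q x.1 x.2) := hqc
    have h3 : Computable (fun y : (List ℕ × ℕ) × ℕ => q (y.1.1, y.1.2) y.2) := hq'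
    exact ccond h2 (cconst _) (ccond h3 (cconst _) (cconst _))
  · intro m
    by_cases hm : ∃ n, d n = some m
    · obtain ⟨n, hn⟩ := hm
      refine ⟨n + 1, 0, ?_⟩
      have : exB (fun k => decide (dvrk (pre (fun k => Nat.pair (encode (d k))
          ({q | ∃ x, q = tp LL M k x}.ncard)) (n + 1)) k = some m)) (pre (fun k => Nat.pair (encode (d k))
          ({q | ∃ x, q = tp LL M k x}.ncard)) (n + 1)).length = true := by
        rw [exB_iff]
        refine ⟨n, by rw [pre_length]; omega, ?_⟩
        rw [dvrk_pre _ _ _ _ (by rw [pre_length]; omega), hn]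
        simp
      simp only [this, cond_true, Option.isSome_some]
    · obtain ⟨s, hs⟩ := complete_rk d P M hM hR hfin hq m
      obtain ⟨w, hw⟩ := (hqA (_, m)).1 hs
      refine ⟨s, w, ?_⟩
      have key : ∀ b : Bool, (bif b then some (1:ℕ) else bif q (pre (fun k => Nat.pair (encode (d k))
          ({q | ∃ x, q = tp LL M k x}.ncard)) s, m) w then some 0 else none).isSome = true := by
        intro b
        have hw' : q (pre (fun k => Nat.pair (encode (d k)) ({q | ∃ x, q = tp LL M k x}.ncard)) s, m) w = true := hw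
        rw [hw']
        cases b <;> rfl
      exact key _
  · intro m s w y hy
    rcases hb : exB (fun k => decide (dvrk (pre (fun k => Nat.pair (encode (d k))
          ({q | ∃ x, q = tp LL M k x}.ncard)) s) k = some m)) (pre (fun k => Nat.pair (encode (d k))
          ({q | ∃ x, q = tp LL M k x}.ncard)) s).length with _ | _
    · simp only [hb, cond_false] at hy
      rcases hw : q (pre (fun k => Nat.pair (encode (d k))
          ({q | ∃ x, q = tp LL M k x}.ncard)) s, m) w with _ | _
      · simp [hw] at hy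
      · simp only [hw, cond_true, Option.some.injEq] at hy
        have hA := (hqA (_, m)).2 ⟨w, hw⟩
        have hno : ∀ n < s, d n ≠ some m := by
          intro n hn hdn
          have : exB (fun k => decide (dvrk (pre (fun k => Nat.pair (encode (d k))
              ({q | ∃ x, q = tp LL M k x}.ncard)) s) k = some m)) (pre (fun k => Nat.pair (encode (d k))
              ({q | ∃ x, q = tp LL M k x}.ncard)) s).length = true := by
            rw [exB_iff]
            refine ⟨n, by rw [pre_length]; exact hn, ?_⟩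
            rw [dvrk_pre _ _ _ _ (by rw [pre_length]; exact hn), hdn]
            simp
          rw [this] at hb
          exact absurd hb (by simp)
        have hfinal := sound_rk d P M hM hR hfin hq s m hA hno
        rw [← hy]
        unfold chi
        rw [if_neg]
        rintro ⟨n, hn⟩
        exact hfinal n hn
    · simp only [hb, cond_true, Option.some.injEq] at hy
      rw [exB_iff] at hb
      obtain ⟨n, hn, hdn⟩ := hb
      rw [dvrk_pre _ _ _ _ hn] at hdn
      rw [← hy]
      unfold chi
      rw [if_pos]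
      exact ⟨n, by simpa using hdn⟩


end Pool.Agent.Y670.TF
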