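import Mathlib
import Pool.Agent.Helper941.Zeta.Cmp
import Pool.Agent.Y670.TF.Rel

set_option autoImplicit false

/-!
The set of the codes of functions with finite domain is `Σ⁰_2`-complete.
-/

namespace Pool.Agent.Y670.TF

open Pool.Agent.Helper750.CT Pool.Agent.Helper750.DC Encodable Nat.Partrec
open Pool.Agent.Helper941.Zeta Pool.Agent.Helper941

/-- `P` is a `Σ⁰_2` set: `n ∈ P` iff `∃ a, ∀ b, R (n, a, b)` with a computable relation `R`. -/
def SigmaTwo (P : Set ℕ) : Prop :=
  ∃ R : ℕ × ℕ × ℕ → Prop, ComputablePred R ∧ ∀ n, n ∈ P ↔ ∃ a, ∀ b, R (n, a, b)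

theorem sigma_red {P : Set ℕ} (h : SigmaTwo P) : ∃ g : ℕ → ℕ, Computable g ∧
    ∀ n, n ∈ P ↔ {t | ((Denumerable.ofNat Code (g n)).eval t).Dom}.Finite := by
  classical
  obtain ⟨R, hR, hP⟩ := h
  let A : ℕ × ℕ → ℕ := fun q => sInf {a | q.2 ≤ a ∨ ∀ b < q.2, R (q.1, a, b)}
  have hex : ∀ q : ℕ × ℕ, ∃ a, q.2 ≤ a ∨ ∀ b < q.2, R (q.1, a, b) := fun q => ⟨q.2, Or.inl le_rfl⟩
  have hA : ∀ n s, s ≤ A (n, s) ∨ ∀ b < s, R (n, A (n, s), b) := fun n s =>
    Nat.sInf_mem (s := {a | s ≤ a ∨ ∀ b < s, R (n, a, b)}) (hex (n, s))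
  have hle : ∀ n s a, (s ≤ a ∨ ∀ b < s, R (n, a, b)) → A (n, s) ≤ a := fun n s a h =>
    Nat.sInf_le (s := {a | s ≤ a ∨ ∀ b < s, R (n, a, b)}) h
  have cA : Computable A := by
    refine c_least (P := fun (q : ℕ × ℕ) a => q.2 ≤ a ∨ ∀ b < q.2, R (q.1, a, b)) ?_ hex
    refine p_or (p_le (c_snd (c_fst c_id)) (c_snd c_id)) ?_
    refine p_ball (f := fun r : (ℕ × ℕ) × ℕ => r.1.2)
      (P := fun (r : (ℕ × ℕ) × ℕ) b => R (r.1.1, r.2, b)) (c_snd (c_fst c_id)) ?_
    exact IsoProb.computablePred_comp (P := R)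
      (f := fun r : ((ℕ × ℕ) × ℕ) × ℕ => (r.1.1.1, r.1.2, r.2)) hR
      (c_pair (c_fst (c_fst (c_fst c_id))) (c_pair (c_snd (c_fst c_id)) (c_snd c_id)))
  have hmono : ∀ n s, A (n, s) ≤ A (n, s + 1) := by
    intro n s
    apply hle
    rcases hA n (s + 1) with h | h
    · exact Or.inl (by omega)
    · exact Or.inr fun b hb => h b (by omega)
  have hmono' : ∀ n s s', s ≤ s' → A (n, s) ≤ A (n, s') := fun n s s' h =>
    monotone_nat_of_le_succ (f := fun s => A (n, s)) (hmono n) h
  have key : ∀ n, n ∈ P ↔ {s | A (n, s + 1) ≠ A (n, s)}.Finite := by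
    intro n
    rw [hP]
    constructor
    · rintro ⟨a, ha⟩
      have hb : ∀ s, A (n, s) ≤ a := fun s => hle n s a (Or.inr fun b _ => ha b)
      refine Set.Finite.of_finite_image (f := fun s => A (n, s + 1))
        ((Set.finite_Iic a).subset ?_) ?_
      · rintro _ ⟨s, _, rfl⟩
        exact hb _
      · intro s hs s' hs' h
        have h' : A (n, s + 1) = A (n, s' + 1) := h
        rcases lt_trichotomy s s' with h1 | h1 | h1
        · have h2 := hmono' n (s + 1) s' h1
          have h3 := hmono n s'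
          have h4 : A (n, s' + 1) ≠ A (n, s') := hs'
          omega
        · exact h1
        · have h2 := hmono' n (s' + 1) s h1
          have h3 := hmono n s
          have h4 : A (n, s + 1) ≠ A (n, s) := hs
          omega
    · intro hfin
      obtain ⟨s0, hs0⟩ := hfin.bddAbove
      have h1 : ∀ s, s0 < s → A (n, s + 1) = A (n, s) := by
        intro s hs
        by_contra hc
        have := hs0 hc
        omega
      have h2 : ∀ d, A (n, s0 + 1 + d) = A (n, s0 + 1) := by
        intro d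
        induction d with
        | zero => rfl
        | succ d ih => rw [← ih]; exact h1 (s0 + 1 + d) (by omega)
      refine ⟨A (n, s0 + 1), fun b => ?_⟩
      have h3 := hA n (s0 + 1 + (A (n, s0 + 1) + b + 1))
      rw [h2] at h3
      rcases h3 with h3 | h3
      · omega
      · exact h3 b (by omega)
  have hpart : Nat.Partrec fun z : ℕ =>
      (bif decide (A (z.unpair.1, z.unpair.2 + 1) = A (z.unpair.1, z.unpair.2)) then Part.none
        else Part.some 0 : Part ℕ) := by
    have h1 : Computable fun z : ℕ =>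
        decide (A (z.unpair.1, z.unpair.2 + 1) = A (z.unpair.1, z.unpair.2)) := by
      refine (c_decide (p_eq (cA.comp (c_pair (c_up1 c_id) (c_succ (c_up2 c_id))))
        (cA.comp (c_pair (c_up1 c_id) (c_up2 c_id))))).of_eq fun z => ?_
      congr
    exact Partrec.nat_iff.1 (Partrec.cond h1 Partrec.none (Computable.const 0).partrec)
  obtain ⟨c, hc⟩ := Code.exists_code.1 hpart
  refine ⟨fun n => encode (Code.curry c n), ?_, fun n => ?_⟩
  · exact Computable.encode.comp (Code.primrec₂_curry.to_comp.comp (Computable.const c)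
      Computable.id)
  · rw [key n, Denumerable.ofNat_encode]
    have : {t | ((Code.curry c n).eval t).Dom} = {s | A (n, s + 1) ≠ A (n, s)} := by
      ext t
      simp only [Set.mem_setOf_eq, Code.eval_curry]
      rw [hc]
      simp only [Nat.unpair_pair]
      by_cases h1 : A (n, t + 1) = A (n, t)
      · simp [h1]
      · simp [h1]
    rw [this]

end Pool.Agent.Y670.TF
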